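import Pool.Agent.Helper60.NF.Sec
import Pool.Agent.Helper60.NF.Coll
import Pool.Agent.Helper19.NF.Defs

/-!
# F1 and F2 in the frame
-/

set_option autoImplicit false

namespace Pool.Agent.Helper60.NFF

open Pool.Agent.Helper19.NF
open Pool.Agent.Helper60.NF (xw child Ann Ow Ys Two)

variable {U D B Z : Type} [Fintype D] [AddCommGroup B] {σ S : ℕ}

theorem val_eq (g : D → Equiv.Perm U) (x0 : U → B) (I : B → D → B) (i : ℕ) :
    ∀ u, val g x0 I i u = Pool.Agent.Helper60.NF.val g x0 I i u := by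
  induction i with
  | zero => exact fun _ => rfl
  | succ i ih =>
    intro u
    show ∑ c, I (val g x0 I i (g c u)) c = _
    rw [Pool.Agent.Helper60.NF.val_succ]
    exact Finset.sum_congr rfl fun s _ => by rw [ih]

theorem cf_iff (g : D → Equiv.Perm U) (x0 : U → B) (n : ℕ) (I : B → D → B) :
    CF g x0 n I ↔ Pool.Agent.Helper60.NF.CF g x0 n I := by
  unfold CF Pool.Agent.Helper60.NF.CF
  simp only [val_eq]

/-- F1: few instances have two equal elements in the rows below `n`. -/
theorem card_not_CF [Fintype U] [Fintype B] [Nonempty D] (g : D → Equiv.Perm U) (x0 : U → B)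
    (h0 : Function.Injective x0) (n : ℕ) :
    Nat.card {I : B → D → B // ¬ CF g x0 n I} * Fintype.card B ≤
      (n * Fintype.card U) ^ 2 * Nat.card (B → D → B) := by
  rw [Nat.card_congr (Equiv.subtypeEquivRight fun I => not_congr (cf_iff g x0 n I))]
  exact Pool.Agent.Helper60.NF.cf_count g x0 h0 n

section run

variable {C W : Type}

theorem obs_congr {P : Prog C W Z σ S} {I I' : C → W} {q : Fin S} {t : ℕ}
    (h : (P.step I)^[t] q = (P.step I')^[t] q) : obs P I q t = obs P I' q t := by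
  unfold obs
  rw [h]

/-- One more step of two runs which agree. -/
theorem run_succ {P : Prog C W Z σ S} {I I' : C → W} {q : Fin S} {t : ℕ}
    (h : (P.step I)^[t] q = (P.step I')^[t] q) (hc : ∀ c, obs P I q t = Sum.inl c → I c = I' c) :
    (P.step I)^[t + 1] q = (P.step I')^[t + 1] q := by
  rw [Function.iterate_succ_apply', Function.iterate_succ_apply', h]
  unfold obs at hc
  rw [h] at hc
  generalize (P.step I')^[t] q = r at hc
  unfold see at hc
  unfold Prog.step
  rcases hact : P.act r with a | a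
  · have h2 := hc a.1 (by rw [hact]; rfl)
    simp [h2]
  · rfl

end run

/-- The two runs agree, and the values of the queried nodes agree. -/
theorem lock {g : D → Equiv.Perm U} {x0 : U → B} {n : ℕ} {G : Finset (ℕ × U)} {sg : ℕ × U → D}
    {J J' K : B → D → B} (h : Two g x0 n G sg J J' K) (P : Prog B (D → B) Z σ S) (q : Fin S)
    {num : ℕ × U → ℕ}
    (ha : ∀ w ∈ G, Ann (obs P J q) (xw g x0 J w) (xw g x0 J (child g w (sg w))) (num w))
    (ha' : ∀ w ∈ G, Ann (obs P J' q) (xw g x0 J' w) (xw g x0 J' (child g w (sg w))) (num w))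
    (t : ℕ) :
    (∀ j ≤ t, (P.step J)^[j] q = (P.step J')^[j] q) ∧
      (∀ w ∈ G, ∀ j < t, obs P J q j = Sum.inl (xw g x0 J w) → xw g x0 J w = xw g x0 J' w) ∧
      (∀ w ∈ G, ∀ j < t, obs P J' q j = Sum.inl (xw g x0 J' w) → xw g x0 J' w = xw g x0 J w) := by
  induction t with
  | zero =>
    refine ⟨fun j hj => ?_, fun v _ j hj => absurd hj (by omega), fun v _ j hj => absurd hj (by omega)⟩
    obtain rfl : j = 0 := by omega
    rfl
  | succ t ih =>
    obtain ⟨h1, h2, h3⟩ := ih
    have ho : ∀ j ≤ t, obs P J q j = obs P J' q j := fun j hj => obs_congr (h1 j hj)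
    have h4 : ∀ w ∈ G, ∀ j < t + 1, obs P J q j = Sum.inl (xw g x0 J w) →
        xw g x0 J w = xw g x0 J' w := by
      intro v hv j hj hjv
      rcases Nat.lt_or_eq_of_le (Nat.lt_succ_iff.1 hj) with h5 | h5
      · exact h2 v hv j h5 hjv
      · subst h5
        exact Pool.Agent.Helper60.NF.ann_step (ha v hv) (ha' v hv) ho (h2 v hv) hjv
    have h5 : ∀ w ∈ G, ∀ j < t + 1, obs P J' q j = Sum.inl (xw g x0 J' w) →
        xw g x0 J' w = xw g x0 J w := by
      intro v hv j hj hjv
      rcases Nat.lt_or_eq_of_le (Nat.lt_succ_iff.1 hj) with h6 | h6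
      · exact h3 v hv j h6 hjv
      · subst h6
        exact Pool.Agent.Helper60.NF.ann_step (ha' v hv) (ha v hv) (fun i hi => (ho i hi).symm)
          (h3 v hv) hjv
    refine ⟨fun j hj => ?_, h4, h5⟩
    rcases Nat.lt_or_eq_of_le hj with h6 | h6
    · exact h1 j (by omega)
    · subst h6
      refine run_succ (h1 t le_rfl) fun x hx => ?_
      funext s
      by_cases h7 : (x, s) ∈ Ow g x0 G sg J
      · exact h.answer ha hx h4 h7
      · by_cases h8 : (x, s) ∈ Ow g x0 G sg J'
        · exact (h.symm.answer ha' ((ho t le_rfl).symm.trans hx) h5 h8).symm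
        · rw [← h.ag x s h7, ← h.ag' x s h8]

/-- The secrets lemma for the programs of the frame, with a finite set of nodes. -/
theorem secrets_set [Fintype B] (g : D → Equiv.Perm U) (x0 : U → B) (n : ℕ)
    (P : Prog B (D → B) Z σ S) (q : Fin S) (G : Finset (ℕ × U)) (hG : ∀ w ∈ G, 1 ≤ w.1 ∧ w.1 < n)
    (sg : ℕ × U → D) (num : ℕ × U → ℕ) :
    Nat.card {I : B → D → B // Pool.Agent.Helper60.NF.CF g x0 n I ∧
      ∀ w ∈ G, Ann (obs P I q) (xw g x0 I w) (xw g x0 I (child g w (sg w))) (num w)} *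
      Fintype.card B ^ G.card ≤ Nat.card (B → D → B) := by
  classical
  set PP : Set (B → D → B) := {I | Pool.Agent.Helper60.NF.CF g x0 n I ∧
    ∀ w ∈ G, Ann (obs P I q) (xw g x0 I w) (xw g x0 I (child g w (sg w))) (num w)} with hPP
  have h := Pool.Agent.Helper60.NF.packing_cur (κ := Ys g G sg → B) PP (Ow g x0 G sg)
    ((Ys g G sg).card + G.card)
    (fun I c => ∀ y : Ys g G sg, c y = I (xw g x0 I y.1.1) y.1.2) ?_
    (fun I hI => Pool.Agent.Helper60.NF.ow_ncard hI.1 hG) ?_
  · have h1 : Nat.card (Ys g G sg → B) = Fintype.card B ^ (Ys g G sg).card := by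
      rw [Nat.card_fun]
      simp
    rw [h1, Nat.card_eq_fintype_card (α := B), pow_add] at h
    have hA : 0 < Fintype.card B := Fintype.card_pos
    have h2 : Nat.card PP * Fintype.card B ^ G.card * Fintype.card B ^ (Ys g G sg).card ≤
        Nat.card (B → D → B) * Fintype.card B ^ (Ys g G sg).card := by
      calc _ = Nat.card PP * (Fintype.card B ^ (Ys g G sg).card * Fintype.card B ^ G.card) := by ring
        _ ≤ _ := h
        _ = _ := by ring
    exact Nat.le_of_mul_le_mul_right h2 (pow_pos hA _)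
  · exact fun I _ => ⟨fun y => I (xw g x0 I y.1.1) y.1.2, fun _ => rfl⟩
  · rintro J ⟨hJ, ha⟩ J' ⟨hJ', ha'⟩ c K hr hr' hK hK'
    have hT : Two g x0 n G sg J J' K :=
      ⟨hG, hJ, hJ', hK, hK', fun y hy => (hr ⟨y, hy⟩).symm.trans (hr' ⟨y, hy⟩)⟩
    refine hT.eq fun w hw => ?_
    obtain ⟨m, hm, -⟩ := ha w hw
    exact (lock hT P q ha ha' (m + 1)).2.1 w hw m (by omega) hm

/-- F2: the secrets lemma. -/
theorem secrets [Fintype B] {ι : Type} [Fintype ι] (g : D → Equiv.Perm U) (x0 : U → B) (n : ℕ)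
    (P : Prog B (D → B) Z σ S) (q : Fin S) (nd : ι → ℕ × U) (hinj : Function.Injective nd)
    (hrow : ∀ a, 1 ≤ (nd a).1 ∧ (nd a).1 < n) (sl : ι → D) (num : ι → ℕ) :
    Nat.card {I : B → D → B // CF g x0 n I ∧ ∀ a, Hit (obs P I q) (val g x0 I (nd a).1 (nd a).2)
      (val g x0 I ((nd a).1 - 1) (g (sl a) (nd a).2)) (num a)} * Fintype.card B ^ Fintype.card ι ≤
      Nat.card (B → D → B) := by
  classical
  rcases isEmpty_or_nonempty ι with hι | ⟨⟨a₀⟩⟩
  · rw [Fintype.card_eq_zero (α := ι), pow_zero, mul_one]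
    exact Nat.card_le_card_of_injective Subtype.val Subtype.val_injective
  · set G : Finset (ℕ × U) := Finset.univ.image nd with hGd
    have hG : ∀ w ∈ G, 1 ≤ w.1 ∧ w.1 < n := by
      intro w hw
      obtain ⟨a, -, rfl⟩ := Finset.mem_image.1 hw
      exact hrow a
    have h := secrets_set g x0 n P q G hG (Function.extend nd sl fun _ => sl a₀)
      (Function.extend nd num fun _ => 0)
    rw [hGd, Finset.card_image_of_injective _ hinj, Finset.card_univ] at h
    refine le_trans (Nat.mul_le_mul_right _ ?_) h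
    refine Nat.card_le_card_of_injective (fun I => ⟨I.1, (cf_iff g x0 n I.1).1 I.2.1, ?_⟩) ?_
    · intro w hw
      obtain ⟨a, -, rfl⟩ := Finset.mem_image.1 hw
      rw [hinj.extend_apply, hinj.extend_apply]
      have h1 := I.2.2 a
      rw [val_eq, val_eq] at h1
      exact h1
    · intro I I' hI
      exact Subtype.ext (Subtype.mk.inj hI)

end Pool.Agent.Helper60.NFF
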