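import Pool.Agent.Helper19.NF.Model
import Pool.Agent.Helper5.TreeExp.Upper

/-!
# Programs which may read all cells: the upper bound of Cook and Mertz for the network
-/

set_option autoImplicit false

namespace Pool.Agent.Helper60.NFA

open Pool.Agent.Helper19.NF
open Pool.Agent.Helper5.TreeExp (BP Inst Var value ask Solves)

/-! ## Programs with an arbitrary finite type of states -/

section mk

variable {C W Z Q : Type}

/-- One step. -/
def stepQ (act : Q → (C × (W → Q)) ⊕ Z) (I : C → W) (x : Q) : Q :=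
  (act x).elim (fun t => t.2 (I t.1)) (fun _ => x)

/-- The program with states numbered. -/
noncomputable def mkP [Fintype Q] (s : Q) (act : Q → (C × (W → Q)) ⊕ Z) :
    Prog C W Z 1 (Fintype.card Q) where
  start := fun _ => Fintype.equivFin Q s
  act := fun x => (act ((Fintype.equivFin Q).symm x)).elim
    (fun t => Sum.inl (t.1, fun w => Fintype.equivFin Q (t.2 w))) Sum.inr

theorem mkP_step [Fintype Q] (s : Q) (act : Q → (C × (W → Q)) ⊕ Z) (I : C → W) (x : Q) :
    (mkP s act).step I (Fintype.equivFin Q x) = Fintype.equivFin Q (stepQ act I x) := by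
  unfold Prog.step stepQ mkP
  simp only [Equiv.symm_apply_apply]
  rcases act x with t | z <;> rfl

theorem mkP_iter [Fintype Q] (s : Q) (act : Q → (C × (W → Q)) ⊕ Z) (I : C → W) (x : Q) (j : ℕ) :
    ((mkP s act).step I)^[j] (Fintype.equivFin Q x) = Fintype.equivFin Q ((stepQ act I)^[j] x) := by
  induction j with
  | zero => rfl
  | succ j ih => rw [Function.iterate_succ_apply', Function.iterate_succ_apply', ih, mkP_step]

theorem mkP_outputs [Fintype Q] (s : Q) (act : Q → (C × (W → Q)) ⊕ Z) (I : C → W) {z : Z}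
    (h : ∃ j, act ((stepQ act I)^[j] s) = Sum.inr z) :
    (mkP s act).Outputs I ((mkP s act).start 0) z := by
  obtain ⟨j, hj⟩ := h
  refine ⟨j, ?_⟩
  have h1 : (mkP s act).start 0 = Fintype.equivFin Q s := rfl
  rw [h1, mkP_iter]
  show (act ((Fintype.equivFin Q).symm _)).elim _ _ = _
  rw [Equiv.symm_apply_apply, hj]
  rfl

end mk

/-! ## Queries of sums -/

section sim

variable {C W Z V Acc : Type} [AddCommGroup Acc] {K N r : ℕ}

/-- A program over the variables `V`, where the query of a variable is replaced by `r` queries and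
an accumulator. -/
def actQ (hr : 0 < r) (B' : BP V K N) (cell : V → Fin r → C) (g : V → Fin r → W → Acc)
    (fin : V → Acc → Fin K) (o : Fin K → Z) (x : Fin N × Fin r × Acc) :
    (C × (W → Fin N × Fin r × Acc)) ⊕ Z :=
  (B'.act x.1).elim
    (fun t => Sum.inl (cell t.1 x.2.1, fun w =>
      if h : x.2.1.val + 1 < r then (x.1, ⟨x.2.1.val + 1, h⟩, x.2.2 + g t.1 x.2.1 w)
      else (t.2 (fin t.1 (x.2.2 + g t.1 x.2.1 w)), ⟨0, hr⟩, 0)))
    (fun y => Sum.inr (o y))

/-- The summand number `i`. -/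
def sm (cell : V → Fin r → C) (g : V → Fin r → W → Acc) (I : C → W) (v : V) (i : ℕ) : Acc :=
  if h : i < r then g v ⟨i, h⟩ (I (cell v ⟨i, h⟩)) else 0

theorem iter_lt (hr : 0 < r) (B' : BP V K N) (cell : V → Fin r → C) (g : V → Fin r → W → Acc)
    (fin : V → Acc → Fin K) (o : Fin K → Z) (I : C → W) {q : Fin N} {v : V}
    {next : Fin K → Fin N} (hq : B'.act q = Sum.inl (v, next)) :
    ∀ j (hj : j < r), (stepQ (actQ hr B' cell g fin o) I)^[j] (q, ⟨0, hr⟩, 0) =
      (q, ⟨j, hj⟩, ∑ i ∈ Finset.range j, sm cell g I v i) := by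
  intro j
  induction j with
  | zero =>
    intro _
    rfl
  | succ j ih =>
    intro hj
    rw [Function.iterate_succ_apply', ih (by omega)]
    unfold stepQ actQ
    simp only [hq, Sum.elim_inl]
    rw [dif_pos hj, Finset.sum_range_succ]
    congr 3
    unfold sm
    rw [dif_pos (by omega)]

theorem iter_r (hr : 0 < r) (B' : BP V K N) (cell : V → Fin r → C) (g : V → Fin r → W → Acc)
    (fin : V → Acc → Fin K) (o : Fin K → Z) (I : C → W) (q : Fin N) :
    (stepQ (actQ hr B' cell g fin o) I)^[r] (q, ⟨0, hr⟩, 0) =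
      (B'.step (fun v => fin v (∑ i, g v i (I (cell v i)))) q, ⟨0, hr⟩, 0) := by
  rcases hq : B'.act q with ⟨v, next⟩ | y
  · obtain ⟨s, rfl⟩ : ∃ s, r = s + 1 := ⟨r - 1, by omega⟩
    rw [Function.iterate_succ_apply', iter_lt hr B' cell g fin o I hq s (by omega)]
    have h1 : ∑ i, g v i (I (cell v i)) =
        ∑ i ∈ Finset.range s, sm cell g I v i + g v ⟨s, by omega⟩ (I (cell v ⟨s, by omega⟩)) := by
      have h2 : ∑ i : Fin (s + 1), g v i (I (cell v i)) =
          ∑ i : Fin (s + 1), sm cell g I v i := by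
        refine Finset.sum_congr rfl fun i _ => ?_
        unfold sm
        rw [dif_pos i.2]
      rw [h2, ← Finset.sum_range (fun i => sm cell g I v i), Finset.sum_range_succ]
      congr 1
      unfold sm
      rw [dif_pos (by omega)]
    unfold BP.step
    rw [hq]
    simp only [Sum.elim_inl]
    rw [h1]
    unfold stepQ actQ
    simp only [hq, Sum.elim_inl]
    rw [dif_neg (by omega)]
  · have h1 : stepQ (actQ hr B' cell g fin o) I (q, ⟨0, hr⟩, 0) = (q, ⟨0, hr⟩, 0) := by
      unfold stepQ actQ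
      simp only [hq, Sum.elim_inr]
    rw [Function.iterate_fixed h1]
    unfold BP.step
    rw [hq]
    rfl

theorem iter_mul (hr : 0 < r) (B' : BP V K N) (cell : V → Fin r → C) (g : V → Fin r → W → Acc)
    (fin : V → Acc → Fin K) (o : Fin K → Z) (I : C → W) (q : Fin N) (t : ℕ) :
    (stepQ (actQ hr B' cell g fin o) I)^[r * t] (q, ⟨0, hr⟩, 0) =
      ((B'.step (fun v => fin v (∑ i, g v i (I (cell v i)))))^[t] q, ⟨0, hr⟩, 0) := by
  induction t with
  | zero => rfl
  | succ t ih =>
    rw [Nat.mul_succ, Nat.add_comm, Function.iterate_add_apply, ih, iter_r,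
      Function.iterate_succ_apply']

theorem sim [Fintype Acc] (hr : 0 < r) (B' : BP V K N) (cell : V → Fin r → C)
    (g : V → Fin r → W → Acc) (fin : V → Acc → Fin K) (o : Fin K → Z) :
    ∃ P : Prog C W Z 1 (Fintype.card (Fin N × Fin r × Acc)), ∀ (I : C → W) (z : Fin K),
      B'.Outputs (fun v => fin v (∑ i, g v i (I (cell v i)))) z → P.Outputs I (P.start 0) (o z) := by
  refine ⟨mkP (B'.start, ⟨0, hr⟩, 0) (actQ hr B' cell g fin o), fun I z h => mkP_outputs _ _ _ ?_⟩
  obtain ⟨t, ht⟩ := h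
  refine ⟨r * t, ?_⟩
  rw [iter_mul]
  unfold actQ
  simp only [ht, Sum.elim_inr]

end sim

/-! ## The network as a tree -/

section tree

variable {n m : ℕ} [NeZero m] {B : Type} [AddCommGroup B] [Fintype B]

/-- The words, numbered. -/
noncomputable def enc (m : ℕ) [NeZero m] (B : Type) [Fintype B] :
    (ZMod m → B) ≃ Fin (Fintype.card (ZMod m → B)) := Fintype.equivFin _

/-- The number of a child. -/
def sd (s : Bool) : Fin 2 := if s then 1 else 0

/-- The step to the side. -/
def shf (n : ℕ) (c : Fin 2) : ZMod (n + 1) := if c = 1 then 1 else 0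

/-- The function of a node: `X` is the word of the two children. -/
def node (I : B → Bool × ZMod m → B) (X : Fin 2 → ZMod m → B) (t : ZMod m) : B :=
  ∑ c : Bool × ZMod m, I (X (sd c.1) (t + c.2)) c

/-- The network as an instance of tree evaluation. -/
noncomputable def tr (x0 : ZMod (n + 1) × ZMod m → B) (I : B → Bool × ZMod m → B) :
    (i : ℕ) → ZMod (n + 1) → Inst 2 (Fintype.card (ZMod m → B)) i
  | 0, u => enc m B (fun t => x0 (u, t))
  | i + 1, u => (fun x => enc m B (node I fun c => (enc m B).symm (x c)),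
      fun c => tr x0 I i (u + shf n c))

theorem value_tr (x0 : ZMod (n + 1) × ZMod m → B) (I : B → Bool × ZMod m → B) (i : ℕ) :
    ∀ u, value 2 (Fintype.card (ZMod m → B)) i (tr x0 I i u) =
      enc m B (fun t => val (ring n m) x0 I i (u, t)) := by
  induction i with
  | zero => exact fun _ => rfl
  | succ i ih =>
    intro u
    show enc m B (node I fun c => (enc m B).symm
      (value 2 (Fintype.card (ZMod m → B)) i (tr x0 I i (u + shf n c)))) = _
    congr 1
    funext t
    show ∑ c : Bool × ZMod m, I ((enc m B).symm (value 2 (Fintype.card (ZMod m → B)) i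
      (tr x0 I i (u + shf n (sd c.1)))) (t + c.2)) c =
      ∑ c, I (val (ring n m) x0 I i (ring n m c (u, t))) c
    refine Finset.sum_congr rfl fun c _ => ?_
    rw [ih, Equiv.symm_apply_apply]
    have h1 : ring n m c (u, t) = (u + shf n (sd c.1), t + c.2) := by
      obtain ⟨s, r⟩ := c
      cases s <;> simp [ring, shf, sd]
    rw [h1]

/-- Where a variable of the tree is: a leaf, or an entry of the table. -/
def pl (n K : ℕ) : (i : ℕ) → ZMod (n + 1) → Var 2 K i → ZMod (n + 1) ⊕ (Fin 2 → Fin K)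
  | 0, u, _ => Sum.inl u
  | i + 1, u, v => v.elim Sum.inr (fun y => pl n K i (u + shf n y.1) y.2)

theorem ask_tr (x0 : ZMod (n + 1) × ZMod m → B) (I : B → Bool × ZMod m → B) (i : ℕ) :
    ∀ (u : ZMod (n + 1)) (v : Var 2 (Fintype.card (ZMod m → B)) i),
      ask 2 (Fintype.card (ZMod m → B)) i (tr x0 I i u) v =
        (pl n (Fintype.card (ZMod m → B)) i u v).elim (fun u => enc m B (fun t => x0 (u, t)))
          (fun x => enc m B (node I fun c => (enc m B).symm (x c))) := by
  induction i with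
  | zero => exact fun _ _ => rfl
  | succ i ih =>
    intro u v
    rcases v with x | y
    · rfl
    · exact ih _ _

/-- The enumeration of the letters of the two children. -/
noncomputable def en (m : ℕ) [NeZero m] : Fin (Fintype.card (Bool × ZMod m)) ≃ Bool × ZMod m :=
  (Fintype.equivFin _).symm

variable (m B) in
/-- The cell of the query number `j`. -/
noncomputable def cellP (p : ZMod (n + 1) ⊕ (Fin 2 → Fin (Fintype.card (ZMod m → B))))
    (j : Fin (Fintype.card (Bool × ZMod m))) : B :=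
  p.elim (fun _ => 0) (fun x => (enc m B).symm (x (sd (en m j).1)) (en m j).2)

variable (m B) in
/-- The summand of the query number `j`. -/
noncomputable def sumP (p : ZMod (n + 1) ⊕ (Fin 2 → Fin (Fintype.card (ZMod m → B))))
    (j : Fin (Fintype.card (Bool × ZMod m))) (w : Bool × ZMod m → B) : ZMod m → B :=
  p.elim (fun _ => 0) (fun _ t => w ((en m j).1, (en m j).2 - t))

/-- The content of the variable. -/
noncomputable def finP (x0 : ZMod (n + 1) × ZMod m → B)
    (p : ZMod (n + 1) ⊕ (Fin 2 → Fin (Fintype.card (ZMod m → B)))) (a : ZMod m → B) :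
    Fin (Fintype.card (ZMod m → B)) :=
  p.elim (fun u => enc m B (fun t => x0 (u, t))) (fun _ => enc m B a)

theorem fin_sum (x0 : ZMod (n + 1) × ZMod m → B) (I : B → Bool × ZMod m → B)
    (p : ZMod (n + 1) ⊕ (Fin 2 → Fin (Fintype.card (ZMod m → B)))) :
    finP x0 p (∑ j, sumP m B p j (I (cellP m B p j))) =
      p.elim (fun u => enc m B (fun t => x0 (u, t)))
        (fun x => enc m B (node I fun c => (enc m B).symm (x c))) := by
  rcases p with u | x
  · rfl
  · show enc m B _ = enc m B _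
    congr 1
    funext t
    rw [Finset.sum_apply]
    show ∑ j, I ((enc m B).symm (x (sd (en m j).1)) (en m j).2) ((en m j).1, (en m j).2 - t) =
      ∑ c : Bool × ZMod m, I ((enc m B).symm (x (sd c.1)) (t + c.2)) c
    rw [(en m).sum_comp (fun c : Bool × ZMod m =>
      I ((enc m B).symm (x (sd c.1)) c.2) (c.1, c.2 - t))]
    refine (Fintype.sum_equiv (Equiv.prodCongrRight fun _ : Bool => Equiv.addLeft t) _ _ ?_).symm
    rintro ⟨s, r⟩
    simp

/-- A program for tree evaluation gives a program for the network. -/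
theorem of_tree (x0 : ZMod (n + 1) × ZMod m → B) {N : ℕ}
    (B' : BP (Var 2 (Fintype.card (ZMod m → B)) (n + 1 - 1)) (Fintype.card (ZMod m → B)) N)
    (hB' : Solves 2 (n + 1) (Fintype.card (ZMod m → B)) B') :
    ∃ P : Prog B (Bool × ZMod m → B) B 1
      (Fintype.card (Fin N × Fin (Fintype.card (Bool × ZMod m)) × (ZMod m → B))),
      ∀ I, P.Outputs I (P.start 0) (out x0 I) := by
  have hr : 0 < Fintype.card (Bool × ZMod m) := Fintype.card_pos
  obtain ⟨P, hP⟩ := sim (C := B) (W := Bool × ZMod m → B) (Z := B) (Acc := ZMod m → B) hr B'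
    (fun v => cellP m B (pl n _ n 0 v)) (fun v => sumP m B (pl n _ n 0 v))
    (fun v => finP x0 (pl n _ n 0 v)) (fun y => (enc m B).symm y 0)
  refine ⟨P, fun I => ?_⟩
  have h1 := hB' (tr x0 I n 0)
  have h2 : ask 2 (Fintype.card (ZMod m → B)) (n + 1 - 1) (tr x0 I n 0) =
      fun v => finP x0 (pl n _ n 0 v) (∑ j, sumP m B (pl n _ n 0 v) j
        (I (cellP m B (pl n _ n 0 v) j))) := by
    funext v
    rw [fin_sum]
    exact ask_tr x0 I n 0 v
  rw [h2] at h1
  have h3 := hP I _ h1
  have h4 : (enc m B).symm (value 2 (Fintype.card (ZMod m → B)) (n + 1 - 1) (tr x0 I n 0)) 0 =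
      out x0 I := by
    have h5 := value_tr x0 I n 0
    have h6 : value 2 (Fintype.card (ZMod m → B)) (n + 1 - 1) (tr x0 I n 0) =
      enc m B (fun t => val (ring n m) x0 I n (0, t)) := h5
    rw [h6, Equiv.symm_apply_apply]
    rfl
  rw [h4] at h3
  exact h3

end tree

/-- The number of states of the programs of Cook and Mertz. -/
theorem tree_bound : ∃ C : ℝ, 0 < C ∧ ∀ (n m : ℕ) [NeZero m] (B : Type) [Fintype B], 1 ≤ n →
    2 ≤ Fintype.card B →
    ∃ (N : ℕ) (B' : BP (Var 2 (Fintype.card (ZMod m → B)) (n + 1 - 1))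
      (Fintype.card (ZMod m → B)) N), Solves 2 (n + 1) (Fintype.card (ZMod m → B)) B' ∧
      (N : ℝ) * ((2 * m) * Fintype.card (ZMod m → B)) ≤
        2 ^ (C * (n * Real.logb 2 (2 * (m * Real.logb 2 (Fintype.card B))) +
          m * Real.logb 2 (Fintype.card B))) := by
  obtain ⟨C₀, hC₀⟩ := Pool.Agent.Helper5.TreeExp.upper 2 le_rfl
  set C₁ : ℝ := max C₀ 1 with hC₁
  have hC₁1 : 1 ≤ C₁ := le_max_right _ _
  refine ⟨4 * C₁ + 6, by positivity, ?_⟩
  intro n m _ B _ hn hB
  have hm : 1 ≤ m := Nat.one_le_iff_ne_zero.2 (NeZero.ne m)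
  have hK : Fintype.card (ZMod m → B) = Fintype.card B ^ m := by
    rw [Fintype.card_fun, ZMod.card]
  have hK2 : 2 ≤ Fintype.card (ZMod m → B) := by
    rw [hK]
    calc 2 ≤ Fintype.card B := hB
      _ = Fintype.card B ^ 1 := (pow_one _).symm
      _ ≤ Fintype.card B ^ m := Nat.pow_le_pow_right (by omega) hm
  obtain ⟨N, B', hB', hN⟩ := hC₀ (n + 1) (Fintype.card (ZMod m → B)) (by omega) hK2
  refine ⟨N, B', hB', ?_⟩
  -- notations
  have hk0 : (0 : ℝ) < Fintype.card B := by exact_mod_cast (by omega : 0 < Fintype.card B)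
  have hk1 : (1 : ℝ) < Fintype.card B := by exact_mod_cast (by omega : 1 < Fintype.card B)
  set lk : ℝ := Real.logb 2 (Fintype.card B) with hlk
  have hlk1 : 1 ≤ lk := by
    rw [hlk, Real.le_logb_iff_rpow_le (by norm_num) hk0, Real.rpow_one]
    exact_mod_cast hB
  have hm1 : (1 : ℝ) ≤ m := by exact_mod_cast hm
  set b : ℝ := m * lk with hb
  have hbm : (m : ℝ) ≤ b := by
    rw [hb]
    nlinarith
  have hb1 : 1 ≤ b := hm1.trans hbm
  have hlogK : Real.logb 2 (Fintype.card (ZMod m → B) : ℝ) = b := by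
    rw [hK]
    push_cast
    rw [Real.logb_pow]
  set l : ℝ := Real.logb 2 (2 * b) with hl
  have hl1 : 1 ≤ l := by
    rw [hl, Real.le_logb_iff_rpow_le (by norm_num) (by positivity), Real.rpow_one]
    linarith
  have hn1 : (1 : ℝ) ≤ n := by exact_mod_cast hn
  rw [hlogK] at hN
  have hKb : (Fintype.card (ZMod m → B) : ℝ) = 2 ^ b := by
    rw [← hlogK, Real.rpow_logb (by norm_num) (by norm_num)]
    exact_mod_cast (by omega : 0 < Fintype.card (ZMod m → B))
  rw [hKb]
  have h2m : (2 * m : ℝ) ≤ 2 ^ l := by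
    rw [hl, Real.rpow_logb (by norm_num) (by norm_num) (by positivity)]
    linarith
  have hsq : Real.sqrt (((n + 1 : ℕ) : ℝ) * b * l) ≤ 2 * n * l + b := by
    rw [Real.sqrt_le_left (by positivity)]
    push_cast
    have h1 : ((n : ℝ) + 1) ≤ 2 * n := by linarith
    have h2 : ((n : ℝ) + 1) * b * l ≤ 2 * n * b * l := by
      have : 0 ≤ b * l := by positivity
      nlinarith
    nlinarith [mul_nonneg (mul_nonneg (by linarith : (0:ℝ) ≤ n) (by linarith : (0:ℝ) ≤ l))
      (by linarith : (0:ℝ) ≤ b), sq_nonneg (n * l), sq_nonneg b]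
  have hexp : C₀ * (((n + 1 : ℕ) : ℝ) * l + Real.sqrt (((n + 1 : ℕ) : ℝ) * b * l)) ≤
      C₁ * (4 * n * l + b) := by
    have h1 : ((n + 1 : ℕ) : ℝ) * l + Real.sqrt (((n + 1 : ℕ) : ℝ) * b * l) ≤ 4 * n * l + b := by
      push_cast at hsq ⊢
      nlinarith
    have h2 : 0 ≤ ((n + 1 : ℕ) : ℝ) * l + Real.sqrt (((n + 1 : ℕ) : ℝ) * b * l) := by positivity
    calc C₀ * (((n + 1 : ℕ) : ℝ) * l + Real.sqrt (((n + 1 : ℕ) : ℝ) * b * l))
        ≤ C₁ * (((n + 1 : ℕ) : ℝ) * l + Real.sqrt (((n + 1 : ℕ) : ℝ) * b * l)) :=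
          mul_le_mul_of_nonneg_right (le_max_left _ _) h2
      _ ≤ _ := mul_le_mul_of_nonneg_left h1 (by linarith)
  have hN' : (N : ℝ) ≤ 2 ^ (4 * b + C₁ * (4 * n * l + b)) := by
    refine hN.trans ?_
    rw [Real.rpow_add (by norm_num)]
    have h1 : (Fintype.card (ZMod m → B) : ℝ) ^ (2 * 2) = 2 ^ (4 * b) := by
      rw [hKb, ← Real.rpow_natCast, ← Real.rpow_mul (by norm_num)]
      congr 1
      push_cast
      ring
    rw [h1]
    exact mul_le_mul_of_nonneg_left (Real.rpow_le_rpow_of_exponent_le (by norm_num) hexp)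
      (by positivity)
  calc (N : ℝ) * ((2 * m) * 2 ^ b)
      ≤ 2 ^ (4 * b + C₁ * (4 * n * l + b)) * (2 ^ l * 2 ^ b) := by
        refine mul_le_mul hN' (mul_le_mul_of_nonneg_right h2m (by positivity)) (by positivity)
          (by positivity)
    _ = 2 ^ (4 * b + C₁ * (4 * n * l + b) + (l + b)) := by
        rw [← Real.rpow_add (by norm_num), ← Real.rpow_add (by norm_num)]
    _ ≤ 2 ^ ((4 * C₁ + 6) * (n * l + b)) := by
        refine Real.rpow_le_rpow_of_exponent_le (by norm_num) ?_
        have h1 : l ≤ n * l := by nlinarith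
        nlinarith [mul_nonneg (by linarith : (0:ℝ) ≤ C₁) (by linarith : (0:ℝ) ≤ b),
          mul_nonneg (mul_nonneg (by linarith : (0:ℝ) ≤ C₁) (by linarith : (0:ℝ) ≤ n))
          (by linarith : (0:ℝ) ≤ l), mul_nonneg (by linarith : (0:ℝ) ≤ n) (by linarith : (0:ℝ) ≤ l)]

/-- The programs which may read all cells: Cook and Mertz. -/
theorem read_all : ∃ C : ℝ, 0 < C ∧ ∀ (n m : ℕ) [NeZero m] (B : Type) [AddCommGroup B]
    [Fintype B] (x0 : ZMod (n + 1) × ZMod m → B), 1 ≤ n → 2 ≤ Fintype.card B →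
    ∃ (S : ℕ) (P : Prog B (Bool × ZMod m → B) B 1 S),
      (∀ I, P.Outputs I (P.start 0) (out x0 I)) ∧
      (S : ℝ) ≤ 2 ^ (C * (n * Real.logb 2 (2 * (m * Real.logb 2 (Fintype.card B))) +
        m * Real.logb 2 (Fintype.card B))) := by
  obtain ⟨C, hC, h⟩ := tree_bound
  refine ⟨C, hC, fun n m _ B _ _ x0 hn hB => ?_⟩
  obtain ⟨N, B', hB', hN⟩ := h n m B hn hB
  obtain ⟨P, hP⟩ := of_tree x0 B' hB'
  refine ⟨_, P, hP, le_trans (le_of_eq ?_) hN⟩
  rw [Fintype.card_prod, Fintype.card_prod, Fintype.card_fin, Fintype.card_fin,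
    Fintype.card_prod, Fintype.card_bool, ZMod.card]
  push_cast
  ring

end Pool.Agent.Helper60.NFA
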