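import Pool.Agent.Helper60.NS.Pack

/-!
# Networks with one table whose entries are words
-/

set_option autoImplicit false

namespace Pool.Agent.Helper60.NF

variable {U D A : Type} [Fintype D] [AddCommGroup A]

/-- The values of the nodes: row `0` is `x0`; the letter `s` of the entry of the table at the value
of the node `g s u` of row `i` is a summand of the value of the node `u` of row `i + 1`. -/
def val (g : D → Equiv.Perm U) (x0 : U → A) (I : A → D → A) : ℕ → U → A
  | 0, u => x0 u
  | i + 1, u => ∑ s, I (val g x0 I i (g s u)) s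

/-- The values of the nodes of the rows below `n` are different. -/
def CF (g : D → Equiv.Perm U) (x0 : U → A) (n : ℕ) (I : A → D → A) : Prop :=
  ∀ i < n, ∀ j < n, ∀ u v, val g x0 I i u = val g x0 I j v → i = j ∧ u = v

/-- The value of a node. -/
def xw (g : D → Equiv.Perm U) (x0 : U → A) (I : A → D → A) (w : ℕ × U) : A := val g x0 I w.1 w.2

/-- The lower neighbours of a node. -/
def child (g : D → Equiv.Perm U) (w : ℕ × U) (s : D) : ℕ × U := (w.1 - 1, g s w.2)

variable {g : D → Equiv.Perm U} {x0 : U → A} {n : ℕ}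

theorem val_succ (I : A → D → A) (i : ℕ) (u : U) :
    val g x0 I (i + 1) u = ∑ s, I (val g x0 I i (g s u)) s := rfl

theorem xw_eq (I : A → D → A) {w : ℕ × U} (hw : 1 ≤ w.1) :
    xw g x0 I w = ∑ s, I (xw g x0 I (child g w s)) s := by
  obtain ⟨i, u⟩ := w
  obtain ⟨i, rfl⟩ : ∃ j, i = j + 1 := ⟨i - 1, by simp only at hw; omega⟩
  rfl

theorem CF.inj {I : A → D → A} (h : CF g x0 n I) {w w' : ℕ × U} (hw : w.1 < n) (hw' : w'.1 < n)
    (hx : xw g x0 I w = xw g x0 I w') : w = w' := by
  obtain ⟨h1, h2⟩ := h _ hw _ hw' _ _ hx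
  exact Prod.ext h1 h2

omit [Fintype D] in
theorem child_inj {w w' : ℕ × U} {s : D} (hw : 1 ≤ w.1) (hw' : 1 ≤ w'.1)
    (h : child g w s = child g w' s) : w = w' := by
  unfold child at h
  rw [Prod.mk.injEq] at h
  exact Prod.ext (by omega) ((g s).injective h.2)

omit [Fintype D] in
theorem child_lt {w : ℕ × U} {s : D} (hw : 1 ≤ w.1) (hn : w.1 ≤ n) : (child g w s).1 < n := by
  unfold child
  simp only
  omega

omit [AddCommGroup A] in
/-- Packing for instances with words. -/
theorem packing_cur {κ : Type} [Finite A] [Finite κ] (P : Set (A → D → A))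
    (S : (A → D → A) → Set (A × D)) (m : ℕ) (spec : (A → D → A) → κ → Prop)
    (hspec : ∀ I ∈ P, ∃ c, spec I c) (hS : ∀ I ∈ P, (S I).ncard = m)
    (hinj : ∀ I ∈ P, ∀ I' ∈ P, ∀ (c : κ) (K : A → D → A), spec I c → spec I' c →
      (∀ x s, (x, s) ∉ S I → K x s = I x s) → (∀ x s, (x, s) ∉ S I' → K x s = I' x s) → I = I') :
    Nat.card P * Nat.card A ^ m ≤ Nat.card κ * Nat.card (A → D → A) := by
  have h := NS.packing {I : A × D → A | Function.curry I ∈ P} (fun I => S (Function.curry I)) m
    (fun I => spec (Function.curry I)) (fun I hI => hspec _ hI) (fun I hI => hS _ hI) ?_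
  · rw [Nat.card_congr (Equiv.curry A D A)] at h
    have h1 : Nat.card {I : A × D → A | Function.curry I ∈ P} = Nat.card P :=
      Nat.card_congr ((Equiv.curry A D A).subtypeEquiv fun _ => Iff.rfl)
    rwa [h1] at h
  · intro I hI I' hI' c K hc hc' hK hK'
    have h1 := hinj _ hI _ hI' c (Function.curry K) hc hc' (fun x s hx => hK (x, s) hx)
      (fun x s hx => hK' (x, s) hx)
    exact (Equiv.curry A D A).injective h1

end Pool.Agent.Helper60.NF
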