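import Pool.Agent.Helper60.NF.Net
import Pool.Agent.Helper6.IP.Basic

/-!
# The secrets lemma for networks with one table whose entries are words
-/

set_option autoImplicit false

namespace Pool.Agent.Helper60.NF

open Pool.Agent.Helper6.IP (BP obs cnt)

variable {U D A : Type} [Fintype D] [AddCommGroup A] {S : ℕ}

/-! ## The overwritten components -/

section ow

variable (g : D → Equiv.Perm U) (x0 : U → A) (G : Finset (ℕ × U)) (sg : ℕ × U → D)

open Classical in
/-- The components of the cells of the nodes of `G` which are not holes. -/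
noncomputable def Ys : Finset ((ℕ × U) × D) :=
  (G ×ˢ Finset.univ).filter (fun y => ¬ ∃ w ∈ G, sg w = y.2 ∧ child g w y.2 = y.1)

/-- The overwritten components. -/
def Ow (I : A → D → A) : Set (A × D) :=
  (fun y : (ℕ × U) × D => (xw g x0 I y.1, y.2)) '' (Ys g G sg : Set ((ℕ × U) × D)) ∪
    (fun w => (xw g x0 I (child g w (sg w)), sg w)) '' (G : Set (ℕ × U))

variable {g x0 G sg} {n : ℕ}

theorem mem_Ys {y : (ℕ × U) × D} :
    y ∈ Ys g G sg ↔ y.1 ∈ G ∧ ¬ ∃ w ∈ G, sg w = y.2 ∧ child g w y.2 = y.1 := by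
  simp [Ys]

theorem ow_ncard [Finite A] {I : A → D → A} (hI : CF g x0 n I)
    (hG : ∀ w ∈ G, 1 ≤ w.1 ∧ w.1 < n) :
    (Ow g x0 G sg I).ncard = (Ys g G sg).card + G.card := by
  unfold Ow
  rw [Set.ncard_union_eq ?_ (Set.toFinite _) (Set.toFinite _), Set.InjOn.ncard_image,
    Set.InjOn.ncard_image, Set.ncard_coe_finset, Set.ncard_coe_finset]
  · intro u hu v hv huv
    have hu' := hG u hu
    have hv' := hG v hv
    simp only [Prod.mk.injEq] at huv
    have h1 := hI.inj (child_lt hu'.1 hu'.2.le) (child_lt hv'.1 hv'.2.le) huv.1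
    rw [huv.2] at h1
    exact child_inj hu'.1 hv'.1 h1
  · intro y hy z hz hyz
    have h1 := (mem_Ys.1 hy).1
    have h2 := (mem_Ys.1 hz).1
    simp only [Prod.mk.injEq] at hyz
    exact Prod.ext (hI.inj (hG _ h1).2 (hG _ h2).2 hyz.1) hyz.2
  · rw [Set.disjoint_left]
    rintro c ⟨y, hy, rfl⟩ ⟨w, hw, hwy⟩
    have hw' : w ∈ G := hw
    simp only [Prod.mk.injEq] at hwy
    have h4 := mem_Ys.1 hy
    refine h4.2 ⟨w, hw', hwy.2, ?_⟩
    rw [← hwy.2]
    exact hI.inj (child_lt (hG w hw').1 (hG w hw').2.le) (hG _ h4.1).2 hwy.1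

/-- A component which is used by a node is not overwritten if it does not belong to a node of `G`
and is not a hole. -/
theorem notMem_Ow {I : A → D → A} (hI : CF g x0 n I) (hG : ∀ w ∈ G, 1 ≤ w.1 ∧ w.1 < n)
    {w : ℕ × U} {s : D} (hw : 1 ≤ w.1) (hn : w.1 ≤ n) (h1 : child g w s ∉ G)
    (h2 : ¬ (w ∈ G ∧ sg w = s)) : (xw g x0 I (child g w s), s) ∉ Ow g x0 G sg I := by
  rintro (⟨y, hy, hyw⟩ | ⟨v, hv, hvw⟩)
  · simp only [Prod.mk.injEq] at hyw
    have h4 := (mem_Ys.1 hy).1
    have h5 := hI.inj (hG _ h4).2 (child_lt hw hn) hyw.1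
    rw [h5] at h4
    exact h1 h4
  · have hv' : v ∈ G := hv
    simp only [Prod.mk.injEq] at hvw
    obtain ⟨h3, h4⟩ := hvw
    have h5 := hI.inj (child_lt (hG v hv').1 (hG v hv').2.le) (child_lt hw hn) h3
    rw [h4] at h5
    have h6 := child_inj (hG v hv').1 hw h5
    subst h6
    exact h2 ⟨hv', h4⟩

end ow

/-! ## Two instances with the same code -/

section two

variable {g : D → Equiv.Perm U} {x0 : U → A} {n : ℕ} {G : Finset (ℕ × U)} {sg : ℕ × U → D}
  {J J' K : A → D → A}

/-- The situation: both instances are collision free and agree with `K` outside their overwritten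
components, and the contents at the values of the nodes of `G` agree. -/
structure Two (g : D → Equiv.Perm U) (x0 : U → A) (n : ℕ) (G : Finset (ℕ × U)) (sg : ℕ × U → D)
    (J J' K : A → D → A) : Prop where
  nd : ∀ w ∈ G, 1 ≤ w.1 ∧ w.1 < n
  cf : CF g x0 n J
  cf' : CF g x0 n J'
  ag : ∀ x s, (x, s) ∉ Ow g x0 G sg J → K x s = J x s
  ag' : ∀ x s, (x, s) ∉ Ow g x0 G sg J' → K x s = J' x s
  rr : ∀ y ∈ Ys g G sg, J (xw g x0 J y.1) y.2 = J' (xw g x0 J' y.1) y.2

theorem Two.symm (h : Two g x0 n G sg J J' K) : Two g x0 n G sg J' J K :=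
  ⟨h.nd, h.cf', h.cf, h.ag', h.ag, fun y hy => (h.rr y hy).symm⟩

/-- The contents of the components which are not holes agree. -/
theorem Two.content (h : Two g x0 n G sg J J' K) {w : ℕ × U} {s : D} (hw : 1 ≤ w.1) (hn : w.1 ≤ n)
    (h1 : child g w s ∉ G → xw g x0 J (child g w s) = xw g x0 J' (child g w s))
    (h2 : ¬ (w ∈ G ∧ sg w = s)) :
    J (xw g x0 J (child g w s)) s = J' (xw g x0 J' (child g w s)) s := by
  by_cases h3 : child g w s ∈ G
  · have h4 : (child g w s, s) ∈ Ys g G sg := by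
      rw [mem_Ys]
      refine ⟨h3, ?_⟩
      rintro ⟨w', hw', h5, h6⟩
      have h7 := child_inj (h.nd w' hw').1 hw h6
      rw [h7] at hw' h5
      exact h2 ⟨hw', h5⟩
    exact h.rr _ h4
  · rw [← h.ag _ _ (notMem_Ow h.cf h.nd hw hn h3 h2), ← h.ag' _ _ (notMem_Ow h.cf' h.nd hw hn h3 h2),
      h1 h3]

/-- The values of the nodes outside `G` agree. -/
theorem Two.out (h : Two g x0 n G sg J J' K) : ∀ (i : ℕ) (u : U), i ≤ n → (i, u) ∉ G →
    xw g x0 J (i, u) = xw g x0 J' (i, u) := by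
  intro i
  induction i with
  | zero => exact fun _ _ _ => rfl
  | succ i ih =>
    intro u hi hG
    rw [xw_eq _ (by simp), xw_eq _ (by simp)]
    refine Finset.sum_congr rfl fun s _ => ?_
    exact h.content (by simp) hi (fun h3 => ih _ (by omega) h3) (fun h3 => hG h3.1)

/-- The content of the hole is determined by the value of the node. -/
theorem Two.erased (h : Two g x0 n G sg J J' K) {w : ℕ × U} (hw : w ∈ G)
    (hv : xw g x0 J w = xw g x0 J' w) :
    J (xw g x0 J (child g w (sg w))) (sg w) = J' (xw g x0 J' (child g w (sg w))) (sg w) := by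
  classical
  obtain ⟨h1, h2⟩ := h.nd w hw
  rw [xw_eq _ h1, xw_eq _ h1, ← Finset.add_sum_erase _ _ (Finset.mem_univ (sg w)),
    ← Finset.add_sum_erase (Finset.univ : Finset D) _ (Finset.mem_univ (sg w))] at hv
  have h3 : ∑ s ∈ Finset.univ.erase (sg w), J (xw g x0 J (child g w s)) s =
      ∑ s ∈ Finset.univ.erase (sg w), J' (xw g x0 J' (child g w s)) s := by
    refine Finset.sum_congr rfl fun s hs => ?_
    refine h.content h1 h2.le (fun h4 => h.out _ _ ?_ h4) fun h4 => ?_
    · exact (child_lt (g := g) (s := s) h1 h2.le).le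
    · exact (Finset.mem_erase.1 hs).1 h4.2.symm
  rw [h3] at hv
  exact add_right_cancel hv

/-- A node is announced: the first query of its cell has the number `num`, and it is before the
first query of the cell `c`. -/
def Ann {A E : Type} (o : ℕ → A ⊕ E) (x : A) (c : A) (num : ℕ) : Prop :=
  ∃ t, o t = Sum.inl x ∧ (∀ j < t, o j ≠ Sum.inl x) ∧ cnt o t = num ∧ ∀ j ≤ t, o j ≠ Sum.inl c

/-- One direction of the step for the status. -/
theorem ann_step {A E : Type} {o o' : ℕ → A ⊕ E} {x x' c c' : A} {num : ℕ} (h : Ann o x c num)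
    (h' : Ann o' x' c' num) {t : ℕ} (ho : ∀ j ≤ t, o j = o' j)
    (hst : ∀ j < t, o j = Sum.inl x → x = x') (hx : o t = Sum.inl x) : x = x' := by
  by_cases h1 : ∃ j < t, o j = Sum.inl x
  · obtain ⟨j, hj, hj'⟩ := h1
    exact hst j hj hj'
  · push Not at h1
    obtain ⟨t₁, h2, h3, h4, -⟩ := h
    obtain ⟨t', h2', h3', h4', -⟩ := h'
    have h5 : t₁ = t := by
      rcases lt_trichotomy t₁ t with h6 | h6 | h6
      · exact absurd h2 (h1 _ h6)
      · exact h6
      · exact absurd hx (h3 _ h6)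
    subst h5
    have h10 : cnt o t₁ = cnt o' t₁ :=
      Pool.Agent.Helper6.IP.cnt_congr fun j hj => ho j hj.le
    have h7 : t' = t₁ := by
      by_contra hne
      rcases Nat.lt_or_gt_of_ne hne with h8 | h8
      · have h9 : cnt o' t' < cnt o' t₁ := Pool.Agent.Helper6.IP.cnt_lt h8 h2' h3'
        omega
      · have h9 : cnt o' t₁ < cnt o' t' := Pool.Agent.Helper6.IP.cnt_lt h8
          ((ho t₁ le_rfl).symm.trans h2) fun j hj h' => h3 j hj ((ho j hj.le).trans h')
        omega
    subst h7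
    have h8 := ho t' le_rfl
    rw [h2, h2', Sum.inl.injEq] at h8
    exact h8

/-- The contents of the observed cell agree. -/
theorem Two.answer (h : Two g x0 n G sg J J' K) {E : Type} {o : ℕ → A ⊕ E} {num : ℕ × U → ℕ}
    (ha : ∀ w ∈ G, Ann o (xw g x0 J w) (xw g x0 J (child g w (sg w))) (num w)) {t : ℕ} {x : A}
    (hx : o t = Sum.inl x)
    (hst : ∀ w ∈ G, ∀ j < t + 1, o j = Sum.inl (xw g x0 J w) → xw g x0 J w = xw g x0 J' w) {s : D}
    (how : (x, s) ∈ Ow g x0 G sg J) : J x s = J' x s := by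
  rcases how with ⟨y, hy, hyx⟩ | ⟨w, hw, hwx⟩
  · simp only [Prod.mk.injEq] at hyx
    obtain ⟨rfl, rfl⟩ := hyx
    have h1 := (mem_Ys.1 hy).1
    rw [h.rr y hy, hst _ h1 t (by omega) hx]
  · have hw' : w ∈ G := hw
    simp only [Prod.mk.injEq] at hwx
    obtain ⟨rfl, rfl⟩ := hwx
    obtain ⟨m, hm, -, -, hm'⟩ := ha w hw'
    have hmt : m < t := by
      by_contra hlt
      exact hm' t (by omega) hx
    have h1 := hst w hw' m (by omega) hm
    have h2 : xw g x0 J (child g w (sg w)) = xw g x0 J' (child g w (sg w)) := by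
      by_cases h3 : child g w (sg w) ∈ G
      · exact hst _ h3 t (by omega) hx
      · exact h.out _ _ (child_lt (g := g) (s := sg w) (h.nd w hw').1 (h.nd w hw').2.le).le h3
    rw [h.erased hw' h1, ← h2]

/-- The two runs agree, and the values of the queried nodes agree. -/
theorem Two.lock (h : Two g x0 n G sg J J' K) (B : BP A (D → A) S) (q : Fin S) {num : ℕ × U → ℕ}
    (ha : ∀ w ∈ G, Ann (obs B J q) (xw g x0 J w) (xw g x0 J (child g w (sg w))) (num w))
    (ha' : ∀ w ∈ G, Ann (obs B J' q) (xw g x0 J' w) (xw g x0 J' (child g w (sg w))) (num w))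
    (t : ℕ) :
    (∀ j ≤ t, (B.step J)^[j] q = (B.step J')^[j] q) ∧
      (∀ w ∈ G, ∀ j < t, obs B J q j = Sum.inl (xw g x0 J w) → xw g x0 J w = xw g x0 J' w) ∧
      (∀ w ∈ G, ∀ j < t, obs B J' q j = Sum.inl (xw g x0 J' w) → xw g x0 J' w = xw g x0 J w) := by
  induction t with
  | zero =>
    refine ⟨fun j hj => ?_, fun v _ j hj => absurd hj (by omega), fun v _ j hj => absurd hj (by omega)⟩
    obtain rfl : j = 0 := by omega
    rfl
  | succ t ih =>
    obtain ⟨h1, h2, h3⟩ := ih
    have ho : ∀ j ≤ t, obs B J q j = obs B J' q j := fun j hj =>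
      Pool.Agent.Helper6.IP.obs_congr (h1 j hj)
    have h4 : ∀ w ∈ G, ∀ j < t + 1, obs B J q j = Sum.inl (xw g x0 J w) →
        xw g x0 J w = xw g x0 J' w := by
      intro v hv j hj hjv
      rcases Nat.lt_or_eq_of_le (Nat.lt_succ_iff.1 hj) with h5 | h5
      · exact h2 v hv j h5 hjv
      · subst h5
        exact ann_step (ha v hv) (ha' v hv) ho (h2 v hv) hjv
    have h5 : ∀ w ∈ G, ∀ j < t + 1, obs B J' q j = Sum.inl (xw g x0 J' w) →
        xw g x0 J' w = xw g x0 J w := by
      intro v hv j hj hjv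
      rcases Nat.lt_or_eq_of_le (Nat.lt_succ_iff.1 hj) with h6 | h6
      · exact h3 v hv j h6 hjv
      · subst h6
        exact ann_step (ha' v hv) (ha v hv) (fun i hi => (ho i hi).symm) (h3 v hv) hjv
    refine ⟨fun j hj => ?_, h4, h5⟩
    rcases Nat.lt_or_eq_of_le hj with h6 | h6
    · exact h1 j (by omega)
    · subst h6
      refine Pool.Agent.Helper6.IP.run_succ (h1 t le_rfl) fun x hx => ?_
      funext s
      by_cases h7 : (x, s) ∈ Ow g x0 G sg J
      · exact h.answer ha hx h4 h7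
      · by_cases h8 : (x, s) ∈ Ow g x0 G sg J'
        · exact (h.symm.answer ha' ((ho t le_rfl).symm.trans hx) h5 h8).symm
        · rw [← h.ag x s h7, ← h.ag' x s h8]

theorem Two.agree (h : Two g x0 n G sg J J' K) (hv : ∀ w ∈ G, xw g x0 J w = xw g x0 J' w) {x : A}
    {s : D} (hc : (x, s) ∈ Ow g x0 G sg J) : J x s = J' x s := by
  rcases hc with ⟨y, hy, hyx⟩ | ⟨w, hw, hwx⟩
  · simp only [Prod.mk.injEq] at hyx
    obtain ⟨rfl, rfl⟩ := hyx
    rw [h.rr y hy, hv _ (mem_Ys.1 hy).1]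
  · have hw' : w ∈ G := hw
    simp only [Prod.mk.injEq] at hwx
    obtain ⟨rfl, rfl⟩ := hwx
    have h2 : xw g x0 J (child g w (sg w)) = xw g x0 J' (child g w (sg w)) := by
      by_cases h3 : child g w (sg w) ∈ G
      · exact hv _ h3
      · exact h.out _ _ (child_lt (g := g) (s := sg w) (h.nd w hw').1 (h.nd w hw').2.le).le h3
    rw [h.erased hw' (hv _ hw'), ← h2]

/-- Two instances whose values agree are equal. -/
theorem Two.eq (h : Two g x0 n G sg J J' K) (hv : ∀ w ∈ G, xw g x0 J w = xw g x0 J' w) : J = J' := by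
  funext x s
  by_cases h7 : (x, s) ∈ Ow g x0 G sg J
  · exact h.agree hv h7
  · by_cases h8 : (x, s) ∈ Ow g x0 G sg J'
    · exact (h.symm.agree (fun v hv' => (hv v hv').symm) h8).symm
    · rw [← h.ag x s h7, ← h.ag' x s h8]

end two

/-- The secrets lemma: in few instances the nodes of `G` are queried before one of their lower
neighbours, with prescribed numbers. -/
theorem secrets [Fintype A] (g : D → Equiv.Perm U) (x0 : U → A) (n : ℕ) (B : BP A (D → A) S)
    (q : Fin S) (G : Finset (ℕ × U)) (hG : ∀ w ∈ G, 1 ≤ w.1 ∧ w.1 < n) (sg : ℕ × U → D)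
    (num : ℕ × U → ℕ) :
    Nat.card {I : A → D → A // CF g x0 n I ∧
      ∀ w ∈ G, Ann (obs B I q) (xw g x0 I w) (xw g x0 I (child g w (sg w))) (num w)} *
      Fintype.card A ^ G.card ≤ Nat.card (A → D → A) := by
  classical
  set P : Set (A → D → A) := {I | CF g x0 n I ∧
    ∀ w ∈ G, Ann (obs B I q) (xw g x0 I w) (xw g x0 I (child g w (sg w))) (num w)} with hP
  have h := packing_cur (κ := Ys g G sg → A) P (Ow g x0 G sg) ((Ys g G sg).card + G.card)
    (fun I c => ∀ y : Ys g G sg, c y = I (xw g x0 I y.1.1) y.1.2) ?_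
    (fun I hI => ow_ncard hI.1 hG) ?_
  · have h1 : Nat.card (Ys g G sg → A) = Fintype.card A ^ (Ys g G sg).card := by
      rw [Nat.card_fun]
      simp
    rw [h1, Nat.card_eq_fintype_card (α := A), pow_add] at h
    have hA : 0 < Fintype.card A := Fintype.card_pos
    have h2 : Nat.card P * Fintype.card A ^ G.card * Fintype.card A ^ (Ys g G sg).card ≤
        Nat.card (A → D → A) * Fintype.card A ^ (Ys g G sg).card := by
      calc _ = Nat.card P * (Fintype.card A ^ (Ys g G sg).card * Fintype.card A ^ G.card) := by ring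
        _ ≤ _ := h
        _ = _ := by ring
    exact Nat.le_of_mul_le_mul_right h2 (pow_pos hA _)
  · exact fun I _ => ⟨fun y => I (xw g x0 I y.1.1) y.1.2, fun _ => rfl⟩
  · rintro J ⟨hJ, ha⟩ J' ⟨hJ', ha'⟩ c K hr hr' hK hK'
    have hT : Two g x0 n G sg J J' K :=
      ⟨hG, hJ, hJ', hK, hK', fun y hy => (hr ⟨y, hy⟩).symm.trans (hr' ⟨y, hy⟩)⟩
    refine hT.eq fun w hw => ?_
    obtain ⟨m, hm, -⟩ := ha w hw
    exact (hT.lock B q ha ha' (m + 1)).2.1 w hw m (by omega) hm

end Pool.Agent.Helper60.NF
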